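import Pool.Agent.X312.CK.Main

/-!
# Chow-Künneth decompositions over finite fields: a dichotomy

Let `X` be a smooth projective variety of dimension `d` over the finite field `𝔽_q`, let
`A = CH ^ d(X × X)_ℚ` be the algebra of correspondences modulo rational equivalence, `F` in `A` the
graph of Frobenius, `P_i` in `ℚ[T]` the characteristic polynomial of Frobenius on `H^i(X)`, and

`g = P_0(F) P_1(F) ... P_(2 d)(F)`,

which is a homologically trivial correspondence. By Deligne the polynomials `P_i` are pairwise coprime.
**Either `X` has a Chow-Künneth decomposition, and even one by projectors in the commutative (and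
central) subalgebra** `ℚ[F]` **of** `A`, **or the homologically trivial cycles** `F ^ n g`, `n ≥ 0`, **on**
`X × X` **are linearly independent in** `CH ^ d(X × X)_ℚ`. So `X` has a Chow-Künneth decomposition if
`F` satisfies any polynomial equation modulo rational equivalence, and in particular if the space of the
homologically trivial cycles of codimension `d` on `X × X` has finite dimension. It is not assumed that
the ideal of homologically trivial correspondences is nilpotent or that `g` is nilpotent: the polynomial
equation of `F` may have factors which are prime to all `P_i`; then the motive of `X` has a part without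
cohomology, and this part is added to one of the projectors.

The proof: if the elements `F ^ n g` are linearly dependent then `S(F) = 0` for a polynomial `S ≠ 0`
which is divisible by all `P_i`. Write `S = A_i C_i`, where `A_i` is composed of the prime factors of
`P_i` and `C_i` is prime to `P_i`, and `1 = u_i A_i + v_i C_i`. The elements `e_i = v_i(F) C_i(F)` are
orthogonal idempotents with the right classes, and `1 - ∑ e_i` is an idempotent without cohomology.
-/

set_option autoImplicit false

open Polynomial

universe u v w

namespace Pool.Agent.Results.MP_1bf4cb_ag.FrobeniusDichotomy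

/-- The elements `π i` of the algebra `A` are orthogonal idempotents with sum `1`, and `π i` acts as the
identity on `H i` and as zero on `H j` for `j ≠ i`: a Chow-Künneth decomposition, if `A` is the algebra
of correspondences of degree `0` of a variety and `cl i` its action on the `i`-th cohomology group. -/
def IsChowKunneth {d : ℕ} {A : Type u} [Ring A] {K : Type v} [Field K]
    {H : Fin (2 * d + 1) → Type w} [∀ i, AddCommGroup (H i)] [∀ i, Module K (H i)]
    (cl : ∀ i, A →+* Module.End K (H i)) (π : Fin (2 * d + 1) → A) : Prop :=
  (∀ i, π i * π i = π i) ∧ (∀ i j, i ≠ j → π i * π j = 0) ∧ ∑ i, π i = 1 ∧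
  (∀ i, cl i (π i) = 1) ∧ ∀ i j, i ≠ j → cl j (π i) = 0

/-- **The dichotomy.** In the intended use `A` is the algebra `CH ^ d(X × X)_ℚ`, `H i` is the `i`-th
`ℓ`-adic cohomology group of `X`, `cl i` is the action of correspondences on it, `F` is the graph of
Frobenius, and `P i` is the characteristic polynomial of Frobenius on `H i`. -/
theorem result (d : ℕ) {A : Type u} [Ring A] [Algebra ℚ A] {K : Type v} [Field K]
    {H : Fin (2 * d + 1) → Type w} [∀ i, AddCommGroup (H i)] [∀ i, Module K (H i)]
    (cl : ∀ i, A →+* Module.End K (H i)) (F : A) (P : Fin (2 * d + 1) → ℚ[X])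
    (hP0 : ∀ i, P i ≠ 0) (hco : ∀ i j, i ≠ j → IsCoprime (P i) (P j))
    (hP : ∀ i, cl i (aeval F (P i)) = 0) :
    (∃ π : Fin (2 * d + 1) → A, (∀ i, π i ∈ Algebra.adjoin ℚ {F}) ∧ IsChowKunneth cl π) ∨
    ((∀ n i, cl i (F ^ n * aeval F (∏ j, P j)) = 0) ∧
      LinearIndependent ℚ (fun n : ℕ => F ^ n * aeval F (∏ j, P j))) := by
  rcases Pool.Agent.X312.CK.frob_law (0 : Fin (2 * d + 1)) cl F P hP0 hco hP with h | h
  · obtain ⟨π, h1, h2, h3, h4, h5, h6⟩ := h
    exact Or.inl ⟨π, h1, h2, h3, h4, h5, h6⟩
  · refine Or.inr ⟨fun n i => ?_, h⟩
    obtain ⟨r, hr⟩ := Finset.dvd_prod_of_mem P (Finset.mem_univ i)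
    rw [hr, map_mul, map_mul, map_mul, hP i, zero_mul, mul_zero]

end Pool.Agent.Results.MP_1bf4cb_ag.FrobeniusDichotomy
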